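import Pool.Agent.W2helper8.AF.Stm

/-! Project AF (MP_a320f3_co), piece CLASSIFY. -/

namespace Pool.Agent.W2helper52.AF

open Finset Pool.Agent.W2helper8.AF
open scoped Classical

universe u

theorem p_classify : ClassifyStm.{u} := by
  intro V G n q Y U c u hX hStd hu
  obtain ⟨hn, hq, hdisj, hok, hclq, hsu, hsx⟩ := hX
  obtain ⟨hS4, hST⟩ := hStd
  have hS4' := hS4
  obtain ⟨s1, s2, s3, s4⟩ := hS4'
  set N := nb G Y u with hN
  have hNc : N.card = q := hsu u hu
  have huY : u ∉ Y := fun h => (Finset.disjoint_left.1 hdisj) h hu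
  set T := Y.filter fun x => c x = 0 with hT
  have hTc : T.card = q + 1 := by
    have := s4 0 (by omega)
    simpa [hT] using this
  have memN : ∀ x, x ∈ N ↔ x ∈ Y ∧ ¬ G.Adj u x := fun x => mem_nb
  have memT : ∀ x, x ∈ T ↔ x ∈ Y ∧ c x = 0 := fun x => by simp [hT]
  by_cases h1 : ∃ i, i ≠ 0 ∧ i < n ∧ (Y.filter fun x => c x = i) ⊆ N
  · -- case 1
    obtain ⟨i, hi0, hin, hi⟩ := h1
    left
    have hK : (Y.filter fun x => c x = i).card = q := by
      have := s4 i hin
      rwa [if_neg hi0] at this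
    have hEq : (Y.filter fun x => c x = i) = N :=
      Finset.eq_of_subset_of_card_le hi (by rw [hK, hNc])
    refine ⟨i, hin, fun x hx hxi => ?_, fun _ x hx hxi => ?_⟩
    · by_contra hc
      have : x ∈ N := (memN x).2 ⟨hx, hc⟩
      rw [← hEq] at this
      exact hxi (mem_filter.1 this).2
    · have : x ∈ N := hi (mem_filter.2 ⟨hx, hxi⟩)
      exact ((memN x).1 this).2
  push Not at h1
  have hr : ∀ i, ∃ r : V, i ∈ Ico 1 n → r ∈ Y ∧ c r = i ∧ G.Adj u r := by
    intro i
    by_cases hi : i ∈ Ico 1 n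
    · rw [mem_Ico] at hi
      have h2 := h1 i (by omega) hi.2
      rw [Finset.not_subset] at h2
      obtain ⟨r, hr, hr'⟩ := h2
      rw [mem_filter] at hr
      refine ⟨r, fun _ => ⟨hr.1, hr.2, ?_⟩⟩
      by_contra hc
      exact hr' ((memN r).2 ⟨hr.1, hc⟩)
    · exact ⟨u, fun h => absurd h hi⟩
  choose r hr using hr
  -- two vertices of `T` adjacent to `u` are not adjacent
  have hind : ∀ t ∈ T, ∀ t' ∈ T, G.Adj u t → G.Adj u t' → ¬ G.Adj t t' := by
    intro t ht t' ht' h2 h3 h4
    have ht1 := (memT t).1 ht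
    have ht1' := (memT t').1 ht'
    have hcl : G.IsNClique 3 {u, t, t'} := by
      rw [SimpleGraph.is3Clique_triple_iff]
      exact ⟨h2, h3, h4⟩
    obtain ⟨s, hs, hs'⟩ := clique_of_reps hcl (Ico 1 n) r (by
      intro i hi x hx
      obtain ⟨a, b, d⟩ := hr i hi
      rw [mem_Ico] at hi
      rw [mem_insert, mem_insert, mem_singleton] at hx
      rcases hx with rfl | rfl | rfl
      · exact d.symm
      · exact s2 _ a _ ht1.1 (by rw [b, ht1.2]; omega)
      · exact s2 _ a _ ht1'.1 (by rw [b, ht1'.2]; omega)) (by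
      intro i hi j hj hij
      obtain ⟨a, b, _⟩ := hr i hi
      obtain ⟨a', b', _⟩ := hr j hj
      exact s2 _ a _ a' (by rw [b, b']; exact hij))
    have hcard : 3 + (Ico 1 n).card = n + 2 := by
      rw [Nat.card_Ico]; omega
    rw [hcard] at hs
    refine hok.1 s ?_ hs
    intro x hx
    rcases hs' x hx with h | ⟨i, hi, rfl⟩
    · rw [mem_insert, mem_insert, mem_singleton] at h
      rcases h with rfl | rfl | rfl
      · exact mem_union_right _ hu
      · exact mem_union_left _ ht1.1
      · exact mem_union_left _ ht1'.1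
    · exact mem_union_left _ (hr i hi).1
  by_cases h2 : N ⊆ T
  · left
    refine ⟨0, by omega, fun x hx hx0 => ?_, fun h => absurd rfl h⟩
    by_contra hc
    exact hx0 ((memT x).1 (h2 ((memN x).2 ⟨hx, hc⟩))).2
  have hNT : (N ∩ T).card + 1 ≤ q := by
    rw [← hNc]
    refine Finset.card_lt_card ?_
    refine Finset.ssubset_iff_subset_ne.2 ⟨inter_subset_left, fun h => h2 ?_⟩
    rw [← h]; exact inter_subset_right
  -- some class is almost contained in `N`
  have h3 : ∃ j ∈ Ico 1 n, ((Y.filter fun x => c x = j) \ N).card ≤ 1 := by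
    by_contra hc
    push Not at hc
    have hab : ∀ j, ∃ a b : V, j ∈ Ico 1 n → (a ∈ Y ∧ c a = j ∧ G.Adj u a) ∧
        (b ∈ Y ∧ c b = j ∧ G.Adj u b) ∧ a ≠ b := by
      intro j
      by_cases hj : j ∈ Ico 1 n
      · obtain ⟨a, ha, b, hb, hab⟩ := Finset.one_lt_card.1 (hc j hj)
        have key : ∀ x ∈ (Y.filter fun x => c x = j) \ N, x ∈ Y ∧ c x = j ∧ G.Adj u x := by
          intro x hx
          rw [mem_sdiff, mem_filter] at hx
          refine ⟨hx.1.1, hx.1.2, ?_⟩
          by_contra h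
          exact hx.2 ((memN x).2 ⟨hx.1.1, h⟩)
        exact ⟨a, b, fun _ => ⟨key a ha, key b hb, hab⟩⟩
      · exact ⟨u, u, fun h => absurd h hj⟩
    choose a b hab using hab
    have huT : u ∉ T := fun h => huY ((memT u).1 h).1
    have hCc : (insert u T).card = q + 2 := by
      rw [Finset.card_insert_of_notMem huT, hTc]
    have hSC := S_erase G (mem_insert_self u T)
    rw [Finset.erase_insert huT, hST] at hSC
    have hnbC : (nb G (insert u T) u).card ≤ q := by
      have : nb G (insert u T) u ⊆ insert u (N ∩ T) := by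
        intro x hx
        rw [mem_nb, mem_insert] at hx
        rw [mem_insert]
        rcases hx.1 with h | h
        · exact Or.inl h
        · exact Or.inr (mem_inter.2 ⟨(memN x).2 ⟨((memT x).1 h).1, hx.2⟩, h⟩)
      refine (Finset.card_le_card this).trans ((Finset.card_insert_le _ _).trans hNT)
    have hbad : Bad G ((Ico 1 n).card + 1) (Y ∪ U) := by
      refine bad_of_pairs (C := insert u T) ⟨u, mem_insert_self u T⟩ ?_ (Ico 1 n) a b (Y ∪ U)
        ?_ ?_ ?_ ?_ ?_ ?_ ?_ ?_ ?_
      · rw [hCc]; nlinarith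
      · refine insert_subset (mem_union_right _ hu) ?_
        exact (filter_subset _ _).trans subset_union_left
      · exact fun i hi => mem_union_left _ (hab i hi).1.1
      · exact fun i hi => mem_union_left _ (hab i hi).2.1.1
      · exact fun i hi => (hab i hi).2.2
      · intro i hi x hx
        obtain ⟨e1, e2, e3⟩ := (hab i hi).1
        rw [mem_Ico] at hi
        rw [mem_insert] at hx
        rcases hx with rfl | hx
        · exact e3.symm
        · have hx' := (memT x).1 hx
          exact s2 _ e1 _ hx'.1 (by rw [e2, hx'.2]; omega)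
      · intro i hi x hx
        obtain ⟨e1, e2, e3⟩ := (hab i hi).2.1
        rw [mem_Ico] at hi
        rw [mem_insert] at hx
        rcases hx with rfl | hx
        · exact e3.symm
        · have hx' := (memT x).1 hx
          exact s2 _ e1 _ hx'.1 (by rw [e2, hx'.2]; omega)
      · exact fun i hi j hj hij => s2 _ (hab i hi).1.1 _ (hab j hj).1.1
          (by rw [(hab i hi).1.2.1, (hab j hj).1.2.1]; exact hij)
      · exact fun i hi j hj hij => s2 _ (hab i hi).1.1 _ (hab j hj).2.1.1
          (by rw [(hab i hi).1.2.1, (hab j hj).2.1.2.1]; exact hij)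
      · exact fun i hi j hj hij => s2 _ (hab i hi).2.1.1 _ (hab j hj).2.1.1
          (by rw [(hab i hi).2.1.2.1, (hab j hj).2.1.2.1]; exact hij)
    have hcard : (Ico 1 n).card + 1 = n := by
      rw [Nat.card_Ico]; omega
    rw [hcard] at hbad
    exact hok.2 hbad
  obtain ⟨j, hj, hj1⟩ := h3
  obtain ⟨y1, y2, y3⟩ := hr j hj
  rw [mem_Ico] at hj
  set y := r j with hy
  set K := Y.filter fun x => c x = j with hK
  have hKc : K.card = q := by
    have := s4 j hj.2
    rwa [if_neg (by omega)] at this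
  have hyK : y ∈ K \ N := by
    rw [mem_sdiff, hK, mem_filter]
    exact ⟨⟨y1, y2⟩, fun h => ((memN y).1 h).2 y3⟩
  have hKN : ∀ x ∈ K, x ≠ y → x ∈ N := by
    intro x hx hxy
    by_contra hc
    exact hxy (Finset.card_le_one.1 hj1 x (mem_sdiff.2 ⟨hx, hc⟩) y hyK)
  have hKN1 : (K \ N).card = 1 := le_antisymm hj1 (Finset.card_pos.2 ⟨y, hyK⟩)
  have hKN2 : (K ∩ N).card + 1 = q := by
    have := Finset.card_sdiff_add_card_inter K N
    omega
  have hNK1 : (N \ K).card = 1 := by
    have := Finset.card_sdiff_add_card_inter N K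
    rw [Finset.inter_comm] at this
    omega
  obtain ⟨z, hz⟩ := Finset.card_eq_one.1 hNK1
  have hzN : z ∈ N \ K := by rw [hz]; exact mem_singleton_self z
  have hzu : ∀ x ∈ N, x ∉ K → x = z := by
    intro x hx hxK
    have : x ∈ N \ K := mem_sdiff.2 ⟨hx, hxK⟩
    rw [hz] at this
    exact mem_singleton.1 this
  have hTK : ∀ x ∈ T, x ∉ K := by
    intro x hx hxK
    have h1 := ((memT x).1 hx).2
    have h2 := (mem_filter.1 hxK).2
    omega
  -- `z ∈ T`
  have hzT : z ∈ T := by
    by_contra hzT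
    have hadj : ∀ x ∈ T, G.Adj u x := by
      intro x hx
      by_contra hc
      have hxN : x ∈ N := (memN x).2 ⟨((memT x).1 hx).1, hc⟩
      exact hzT (hzu x hxN (hTK x hx) ▸ hx)
    have hSTc : S G T = T.card * T.card := by
      rw [S, Finset.sum_const_nat]
      intro x hx
      congr 1
      ext t
      rw [mem_nb]
      exact ⟨fun h => h.1, fun h => ⟨h, hind x hx t h (hadj x hx) (hadj t h)⟩⟩
    rw [hST, hTc] at hSTc
    nlinarith
  right
  have hzT' := (memT z).1 hzT
  refine ⟨z, y, j, hzT'.1, hzT'.2, hj.2, by omega, y1, y2, y3, ?_, ?_, ?_, ?_⟩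
  · exact ((memN z).1 (mem_sdiff.1 hzN).1).2
  · intro x hx hxj hxy
    exact ((memN x).1 (hKN x (mem_filter.2 ⟨hx, hxj⟩) hxy)).2
  · intro x hx hxj hxz
    by_contra hc
    exact hxz (hzu x ((memN x).2 ⟨hx, hc⟩) (fun h => hxj (mem_filter.1 h).2))
  · intro x hx x' hx' h1 h2 h3 h4
    have hxT : x ∈ T := (memT x).2 ⟨hx, h1⟩
    have hxT' : x' ∈ T := (memT x').2 ⟨hx', h2⟩
    refine hind x hxT x' hxT' ?_ ?_
    · by_contra hc
      exact h3 (hzu x ((memN x).2 ⟨hx, hc⟩) (hTK x hxT))
    · by_contra hc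
      exact h4 (hzu x' ((memN x').2 ⟨hx', hc⟩) (hTK x' hxT'))

end Pool.Agent.W2helper52.AF
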